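import Pool.Agent.H93.GT.Targets

/-!
# Board gdi_modules, row PRE: the predecessors of the stations
-/

set_option autoImplicit false

namespace Pool.Agent.H56.GT

open Pool.Agent.H93.GT Pool.Agent.H87.Synth Pool.Agent.H85.SC Finset

theorem size_le_self (n : ℕ) : Nat.size n ≤ n := Nat.size_le.2 Nat.lt_two_pow_self

theorem pre1 (n i : ℕ) (hv : Valid n i) (hi : i ≠ 1) :
    (∃ b, i = 2 ^ (b + 1) ∧ n < 2 ^ b ∧ ps n i = slot n (2 ^ b) ∧ Valid n (2 ^ b)) ∨
    (∃ b n', i = 2 ^ (b + 1) ∧ n = n' + 2 ^ b ∧ n' < 2 ^ b ∧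
      ps n i = slot n' (2 ^ (b + 1) - 1) ∧ Valid n' (2 ^ (b + 1) - 1)) ∨
    (i ≠ 2 ^ lg i ∧ 2 ^ lg i < i ∧ lg (i - 1) = lg i ∧ ps n i = slot n (i - 1) ∧
      Valid n (i - 1)) := by
  obtain ⟨h1, h2⟩ := hv
  have hlo : 2 ^ lg i ≤ i := Nat.pow_log_le_self 2 (by omega)
  have hhi : i < 2 ^ (lg i + 1) := Nat.lt_pow_succ_log_self (by norm_num) i
  by_cases h : i = 2 ^ lg i
  · have ha : lg i ≠ 0 := by
      intro e
      rw [e] at h
      exact hi h
    obtain ⟨b, hb⟩ := Nat.exists_eq_succ_of_ne_zero ha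
    have hb' : lg i = b + 1 := hb
    have hlb : lg (2 ^ b) = b := Nat.log_pow (by norm_num) b
    have h2b : 2 ^ (b + 1) = 2 * 2 ^ b := by ring
    have hpos : 0 < 2 ^ b := by positivity
    have hs : lg i - 1 = b := by omega
    rw [hb'] at h h2
    by_cases hn : n < 2 ^ b
    · left
      refine ⟨b, h, hn, ?_, ?_⟩
      · unfold ps
        rw [hs, hb', if_pos h, if_pos hn]
      · exact ⟨hpos, by rw [hlb]; exact hn⟩
    · right
      left
      refine ⟨b, n - 2 ^ b, h, by omega, by omega, ?_, ?_⟩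
      · unfold ps
        rw [hs, hb', if_pos h, if_neg hn, ← h]
      · have hl : lg (2 ^ (b + 1) - 1) = b := by
          have e1 : Nat.log 2 (2 ^ (b + 1) - 1) = b :=
            (Nat.log_eq_iff (Or.inr ⟨by norm_num, by omega⟩)).2 ⟨by omega, by omega⟩
          exact e1
        exact ⟨by omega, by rw [hl]; omega⟩
  · right
    right
    have hlt : 2 ^ lg i < i := lt_of_le_of_ne hlo fun e => h e.symm
    have hpos : 0 < 2 ^ lg i := by positivity
    have hl : lg (i - 1) = lg i := by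
      have e1 : Nat.log 2 (i - 1) = lg i :=
        (Nat.log_eq_iff (Or.inr ⟨by norm_num, by omega⟩)).2 ⟨by omega, by omega⟩
      exact e1
    refine ⟨h, hlt, hl, ?_, by omega, by rw [hl]; exact h2⟩
    unfold ps
    rw [if_neg h]

theorem pre : T_PRE := by
  refine ⟨pre1, fun n i hv hi => ?_, fun n i hv => ?_⟩
  · rcases pre1 n i hv hi with ⟨b, h1, h2, h3, _⟩ | ⟨b, n', h1, h2, h3, h4, _⟩ |
      ⟨h1, h2, _, h4, _⟩
    · have hpos : 1 ≤ 2 ^ b := Nat.one_le_two_pow
      have h2b : 2 ^ (b + 1) = 2 * 2 ^ b := by ring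
      rw [h3, h1]
      generalize hX : 2 ^ b = X at *
      rw [h2b]
      unfold slot
      have hs := size_le_self n
      refine ⟨by nlinarith, ?_, by nlinarith, by nlinarith, by omega⟩
      exact hs.trans (by omega)
    · have hpos : 1 ≤ 2 ^ b := Nat.one_le_two_pow
      have h2b : 2 ^ (b + 1) = 2 * 2 ^ b := by ring
      have hb2 : b < 2 ^ b := Nat.lt_two_pow_self
      have hs : Nat.size n ≤ b + 1 := Nat.size_le.2 (by omega)
      rw [h4, h1]
      generalize hX : 2 ^ b = X at *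
      obtain ⟨Y, hY⟩ : ∃ Y, 2 ^ (b + 1) - 1 = Y := ⟨_, rfl⟩
      have hYX : 2 ^ (b + 1) = Y + 1 := by omega
      rw [hY, hYX]
      have hY1 : 2 * X = Y + 1 := by omega
      unfold slot
      refine ⟨by nlinarith, ?_, by nlinarith, by nlinarith, by omega⟩
      nlinarith
    · have hpos : 1 ≤ 2 ^ lg i := Nat.one_le_two_pow
      have h5 := hv.2
      rw [h4]
      obtain ⟨j, rfl⟩ : ∃ j, i = j + 1 := ⟨i - 1, by omega⟩
      have hs := size_le_self n
      have hj : 1 ≤ j := by omega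
      rw [Nat.add_sub_cancel]
      unfold slot
      refine ⟨by nlinarith, ?_, by nlinarith, by nlinarith, by omega⟩
      exact hs.trans (by omega)
  · have hs := size_le_self n
    unfold slot lvl
    have h1 := hv.1
    refine ⟨by nlinarith, ?_⟩
    have h2 : i - 2 ^ lg i ≤ i := Nat.sub_le _ _
    nlinarith

end Pool.Agent.H56.GT
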